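import Pool.Agent.H.MP_02f3ba_co.B

set_option autoImplicit false

namespace Pool.Agent.Results.MP_02f3ba_co.Exp

theorem result : ∃ f : ℕ → ℤ, (∀ n, f n = 1 ∨ f n = -1) ∧ ∀ ε : ℝ, 0 < ε → ∃ C : ℝ,
    ∀ a d N : ℕ, 1 ≤ d →
      |((∑ k ∈ Finset.range N, f (a + k * d) : ℤ) : ℝ)| ≤ C * (d : ℝ) ^ (3 + 2 * √2 + ε) :=
  Pool.Agent.H.MP_02f3ba_co.main

end Pool.Agent.Results.MP_02f3ba_co.Exp
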